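import Pool.Agent.R804.KServer.Run
import Pool.Agent.R804.KServer.Model

/-!
# A `(2k-1)`-competitive algorithm for the delayed k-server problem
-/

set_option autoImplicit false

open scoped BigOperators
open Function

namespace Pool.Agent.R804.KServer

universe u

variable {M : Type u} [MetricSpace M] {k : ℕ} [NeZero k]

/-- The state of the delayed algorithm: the list of requests fed to the work function algorithm,
the own configuration, and the server which has served the last request. -/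
structure DSt (c : Fin k → M) where
  /-- the requests fed to the work function algorithm -/
  L : List M
  /-- the configuration -/
  D : Fin k → M
  /-- the server that served last -/
  f : Fin k
  inv : ∃ π : Equiv.Perm (Fin k), D = (run c L).C ∘ π

theorem exists_next (hk : 2 ≤ k) {c : Fin k → M} (s : DSt c) (r : M) :
    ∃ s' : DSt c, (∃ B : List M, s'.L = s.L ++ B ∧ ∀ x ∈ B, x = s.D s.f ∨ x = r) ∧
      s'.D s.f = s.D s.f ∧ s'.D s'.f = r ∧
      ∑ i, dist (s.D i) (s'.D i) ≤ (run c s'.L).cost - (run c s.L).cost := by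
  obtain ⟨L, D, f, π, hπ⟩ := s
  obtain ⟨B, hB, ⟨j, hj⟩, ⟨l, hl⟩⟩ := exists_block hk c L (D f) r
  set C := (run c L).C with hC
  set C' := (run c (L ++ B)).C with hC'
  have hCf : C (π f) = C' j := by
    rw [hj, hπ]; rfl
  set π' : Equiv.Perm (Fin k) := π.trans (Equiv.swap (π f) j) with hπ'
  refine ⟨⟨L ++ B, C' ∘ π', π'.symm l, π', rfl⟩, ⟨B, rfl, hB⟩, ?_, ?_, ?_⟩
  · show C' (π' f) = D f
    rw [hπ']
    simp only [Equiv.trans_apply, Equiv.swap_apply_left]
    exact hj
  · show C' (π' (π'.symm l)) = r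
    rw [Equiv.apply_symm_apply]
    exact hl
  · show ∑ i, dist (D i) (C' (π' i)) ≤ (run c (L ++ B)).cost - (run c L).cost
    have h1 : ∑ i, dist (D i) (C' (π' i)) = ∑ m, dist (C m) (C' (Equiv.swap (π f) j m)) := by
      rw [← Equiv.sum_comp π (fun m => dist (C m) (C' (Equiv.swap (π f) j m)))]
      refine Finset.sum_congr rfl fun i _ => ?_
      rw [hπ, hπ']
      rfl
    rw [h1]
    exact (swap_cost C C' hCf).trans (run_move c L B)

/-- One step of the delayed algorithm. -/
noncomputable def dnext (hk : 2 ≤ k) {c : Fin k → M} (s : DSt c) (r : M) : DSt c :=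
  Classical.choose (exists_next hk s r)

theorem dnext_spec (hk : 2 ≤ k) {c : Fin k → M} (s : DSt c) (r : M) :
    (∃ B : List M, (dnext hk s r).L = s.L ++ B ∧ ∀ x ∈ B, x = s.D s.f ∨ x = r) ∧
      (dnext hk s r).D s.f = s.D s.f ∧ (dnext hk s r).D (dnext hk s r).f = r ∧
      ∑ i, dist (s.D i) ((dnext hk s r).D i)
        ≤ (run c (dnext hk s r).L).cost - (run c s.L).cost :=
  Classical.choose_spec (exists_next hk s r)

/-- The run of the delayed algorithm. -/
noncomputable def drun (hk : 2 ≤ k) (c : Fin k → M) (f : Fin k) (ρ : List M) : DSt c :=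
  ρ.foldl (dnext hk) ⟨[], c, f, 1, rfl⟩

theorem drun_nil (hk : 2 ≤ k) (c : Fin k → M) (f : Fin k) :
    drun hk c f [] = ⟨[], c, f, 1, rfl⟩ := rfl

theorem drun_concat (hk : 2 ≤ k) (c : Fin k → M) (f : Fin k) (ρ : List M) (r : M) :
    drun hk c f (ρ ++ [r]) = dnext hk (drun hk c f ρ) r := by
  simp [drun, List.foldl_append]

/-- The algorithm for the delayed k-server problem. -/
noncomputable def alg (hk : 2 ≤ k) (c : Fin k → M) (f : Fin k) : DelayedAlgorithm M k c f where
  conf ρ := (drun hk c f ρ).D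
  serve ρ := (drun hk c f ρ).f
  conf_nil := rfl
  serve_nil := rfl
  frozen ρ r := by
    rw [drun_concat]
    exact (dnext_spec hk (drun hk c f ρ) r).2.1
  served ρ r := by
    rw [drun_concat]
    exact (dnext_spec hk (drun hk c f ρ) r).2.2.1

theorem take_succ_concat (ρ : List M) {t : ℕ} (ht : t < ρ.length) :
    ρ.take (t + 1) = ρ.take t ++ [ρ[t]] := by
  rw [List.take_succ_eq_append_getElem ht]

theorem alg_cost_le (hk : 2 ≤ k) (c : Fin k → M) (f : Fin k) (ρ : List M) :
    (alg hk c f).cost ρ ≤ (run c (drun hk c f ρ).L).cost := by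
  unfold DelayedAlgorithm.cost
  have h1 : ∀ n, n ≤ ρ.length →
      ∑ t ∈ Finset.range n, ∑ i, dist ((alg hk c f).conf (ρ.take t) i)
        ((alg hk c f).conf (ρ.take (t + 1)) i) ≤ (run c (drun hk c f (ρ.take n)).L).cost := by
    intro n
    induction n with
    | zero =>
      intro _
      simp [drun_nil, run_nil]
    | succ n ih =>
      intro hn
      have hn' : n < ρ.length := hn
      rw [Finset.sum_range_succ]
      have h2 := ih hn'.le
      have h3 := (dnext_spec hk (drun hk c f (ρ.take n)) (ρ[n])).2.2.2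
      rw [← drun_concat, ← take_succ_concat ρ hn'] at h3
      have h4 : ∑ i, dist ((alg hk c f).conf (ρ.take n) i) ((alg hk c f).conf (ρ.take (n + 1)) i)
          = ∑ i, dist ((drun hk c f (ρ.take n)).D i) ((drun hk c f (ρ.take (n + 1))).D i) := rfl
      rw [h4]
      linarith
  have h2 := h1 ρ.length le_rfl
  rwa [List.take_length] at h2

theorem work_le_offline (hk : 2 ≤ k) (c₀ : Fin k → M) (f₀ : Fin k) (ρ : List M)
    {c : ℕ → Fin k → M} {g : ℕ → Fin k} (hc0 : c 0 = c₀) (hg0 : g 0 = f₀)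
    (hcg : ∀ (t : ℕ) (ht : t < ρ.length),
      c (t + 1) (g t) = c t (g t) ∧ c (t + 1) (g (t + 1)) = ρ[t]) :
    ∀ n, n ≤ ρ.length →
      (drun hk c₀ f₀ (ρ.take n)).D (drun hk c₀ f₀ (ρ.take n)).f = c n (g n) ∧
      (run c₀ (drun hk c₀ f₀ (ρ.take n)).L).w (c n)
        ≤ ∑ t ∈ Finset.range n, ∑ i, dist (c t i) (c (t + 1) i) := by
  intro n
  induction n with
  | zero =>
    intro _
    refine ⟨?_, ?_⟩
    · simp [drun_nil, hc0, hg0]
    · simp only [List.take_zero, drun_nil, run_nil, hc0, Finset.range_zero, Finset.sum_empty]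
      exact base_self c₀
  | succ n ih =>
    intro hn
    have hn' : n < ρ.length := hn
    obtain ⟨ih1, ih2⟩ := ih hn'.le
    obtain ⟨hfr, hsv⟩ := hcg n hn'
    obtain ⟨⟨B, hB1, hB2⟩, h2, h3, h4⟩ := dnext_spec hk (drun hk c₀ f₀ (ρ.take n)) (ρ[n])
    rw [← drun_concat, ← take_succ_concat ρ hn'] at hB1 h2 h3 h4
    refine ⟨?_, ?_⟩
    · rw [h3, hsv]
    · rw [Finset.sum_range_succ, hB1,
        run_w_append c₀ _ B (X := c (n + 1)) (fun x hx => by
          rcases hB2 x hx with h | h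
          · exact ⟨g n, by rw [hfr, h, ih1]⟩
          · exact ⟨g (n + 1), by rw [hsv, h]⟩)]
      have h5 := (run_isWork c₀ (drun hk c₀ f₀ (ρ.take n)).L).lip_all (c (n + 1)) (c n)
      have h6 : ∑ i, dist (c (n + 1) i) (c n i) = ∑ i, dist (c n i) (c (n + 1) i) :=
        Finset.sum_congr rfl fun i _ => dist_comm _ _
      rw [h6] at h5
      linarith

theorem alg_competitive (hk : 2 ≤ k) (c₀ : Fin k → M) (f₀ : Fin k) :
    (alg hk c₀ f₀).Competitive (2 * k - 1) := by
  refine ⟨∑ i, ∑ j, dist (c₀ i) (c₀ j), fun ρ => ?_⟩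
  have hk2 : (2 : ℝ) ≤ k := by exact_mod_cast hk
  have hpos : (0 : ℝ) < 2 * k - 1 := by linarith
  have hne : {x | OfflineCost c₀ f₀ ρ x}.Nonempty := by
    refine ⟨_, fun t => (alg hk c₀ f₀).conf (ρ.take t), fun t => (alg hk c₀ f₀).serve (ρ.take t),
      (alg hk c₀ f₀).conf_nil, (alg hk c₀ f₀).serve_nil, fun t ht => ?_, rfl⟩
    beta_reduce
    rw [take_succ_concat ρ ht]
    exact ⟨(alg hk c₀ f₀).frozen _ _, (alg hk c₀ f₀).served _ _⟩
  have key : ∀ x ∈ {x | OfflineCost c₀ f₀ ρ x},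
      ((alg hk c₀ f₀).cost ρ - ∑ i, ∑ j, dist (c₀ i) (c₀ j)) / (2 * k - 1) ≤ x := by
    rintro x ⟨c, g, hc0, hg0, hcg, rfl⟩
    have h1 := (work_le_offline hk c₀ f₀ ρ hc0 hg0 hcg ρ.length le_rfl).2
    rw [List.take_length] at h1
    have h2 := run_bound c₀ (drun hk c₀ f₀ ρ).L (c ρ.length)
    have h3 := alg_cost_le hk c₀ f₀ ρ
    rw [div_le_iff₀ hpos]
    have h4 := mul_le_mul_of_nonneg_left h1 hpos.le
    linarith
  have h5 := le_csInf hne key
  rw [div_le_iff₀ hpos] at h5
  unfold delayedOpt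
  linarith

end Pool.Agent.R804.KServer
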