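import Pool.Agent.R804.KServer.Work

/-!
# The work function algorithm for the ordinary k-server problem and its competitiveness
-/

set_option autoImplicit false

open scoped BigOperators
open Function

namespace Pool.Agent.R804.KServer

universe u

variable {M : Type u} [MetricSpace M] {k : ℕ}

theorem IsWork.lip_all {w : (Fin k → M) → ℝ} (hw : IsWork w) (X Y : Fin k → M) :
    w X ≤ w Y + ∑ i, dist (X i) (Y i) := by
  have h : ∀ P : Finset (Fin k), w X ≤ w (P.piecewise Y X) + ∑ i ∈ P, dist (X i) (Y i) := by
    intro P
    induction P using Finset.induction_on with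
    | empty => simp
    | insert a P ha ih =>
      have h1 := hw.lip (P.piecewise Y X) a (Y a)
      rw [← Finset.piecewise_insert, Finset.piecewise_eq_of_notMem _ _ _ ha] at h1
      rw [Finset.sum_insert ha]
      linarith
  have := h Finset.univ
  simpa using this

/-- The state of the work function algorithm: the current work function, the current
configuration and the total cost so far. -/
structure St (M : Type u) (k : ℕ) where
  /-- the work function -/
  w : (Fin k → M) → ℝ
  /-- the configuration -/
  C : Fin k → M
  /-- the cost so far -/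
  cost : ℝ

variable [NeZero k]

/-- The server moved by the work function algorithm. -/
noncomputable def mover (w : (Fin k → M) → ℝ) (C : Fin k → M) (r : M) : Fin k :=
  Classical.choose (exists_upd w r C)

theorem mover_spec (w : (Fin k → M) → ℝ) (C : Fin k → M) (r : M) :
    upd w r C = w (update C (mover w C r) r) + dist (C (mover w C r)) r :=
  Classical.choose_spec (exists_upd w r C)

/-- One step of the work function algorithm. -/
noncomputable def step (s : St M k) (r : M) : St M k :=
  ⟨upd s.w r, update s.C (mover s.w s.C r) r, s.cost + dist (s.C (mover s.w s.C r)) r⟩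

/-- The run of the work function algorithm on a list of requests. -/
noncomputable def run (c : Fin k → M) (L : List M) : St M k :=
  L.foldl step ⟨base c, c, 0⟩

theorem run_nil (c : Fin k → M) : run c [] = ⟨base c, c, 0⟩ := rfl

theorem run_concat (c : Fin k → M) (L : List M) (r : M) :
    run c (L ++ [r]) = step (run c L) r := by
  simp [run, List.foldl_append]

theorem run_isWork (c : Fin k → M) (L : List M) : IsWork (run c L).w := by
  induction L using List.reverseRecOn with
  | nil => exact base_isWork c
  | append_singleton L r ih =>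
    rw [run_concat]
    exact ih.upd r

theorem run_mem (c : Fin k → M) {S : Finset M} (hc : ∀ i, c i ∈ S) (L : List M)
    (hL : ∀ x ∈ L, x ∈ S) : ∀ i, (run c L).C i ∈ S := by
  induction L using List.reverseRecOn with
  | nil => exact hc
  | append_singleton L r ih =>
    rw [run_concat]
    exact update_mem (ih fun x hx => hL x (by simp [hx])) _ (hL r (by simp))

theorem run_pot (c : Fin k → M) {S : Finset M} (hc : ∀ i, c i ∈ S) (L : List M)
    (hL : ∀ x ∈ L, x ∈ S) :
    (run c L).cost + (run c L).w (run c L).C
      ≤ phi S (run c L).w + ∑ i, ∑ j, dist (c i) (c j) := by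
  have hS : S.Nonempty := ⟨c 0, hc 0⟩
  induction L using List.reverseRecOn with
  | nil =>
    rw [run_nil]
    have h1 := phi_base hS c
    have h2 := base_self c
    simp only
    linarith
  | append_singleton L r ih =>
    have hL' : ∀ x ∈ L, x ∈ S := fun x hx => hL x (by simp [hx])
    have hr : r ∈ S := hL r (by simp)
    have ih' := ih hL'
    have hw := run_isWork c L
    have h1 := phi_upd hw hr (run_mem c hc L hL')
    have h2 := mover_spec (run c L).w (run c L).C r
    have h3 : upd (run c L).w r (update (run c L).C (mover (run c L).w (run c L).C r) r)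
        = (run c L).w (update (run c L).C (mover (run c L).w (run c L).C r) r) :=
      hw.upd_eq (i := mover (run c L).w (run c L).C r) (by simp)
    rw [run_concat]
    simp only [step]
    rw [h3]
    linarith

/-- The work function algorithm is `(2k-1)`-competitive (Koutsoupias and Papadimitriou). -/
theorem run_bound (c : Fin k → M) (L : List M) (X : Fin k → M) :
    (run c L).cost ≤ (2 * k - 1) * (run c L).w X + ∑ i, ∑ j, dist (c i) (c j) := by
  classical
  set S : Finset M := Finset.univ.image c ∪ Finset.univ.image X ∪ L.toFinset with hS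
  have hc : ∀ i, c i ∈ S := fun i => by simp [hS]
  have hX : ∀ i, X i ∈ S := fun i => by simp [hS]
  have hL : ∀ x ∈ L, x ∈ S := fun x hx => by simp [hS, hx]
  have hne : S.Nonempty := ⟨c 0, hc 0⟩
  obtain ⟨Y, hY, e⟩ := exists_mn hne (run c L).w
  have h1 := run_pot c hc L hL
  have h2 := phi_le (w := (run c L).w) hY
  have h3 : mn S (run c L).w ≤ (run c L).w (run c L).C := mn_le _ (run_mem c hc L hL)
  have h4 : mn S (run c L).w ≤ (run c L).w X := mn_le _ hX
  rw [e] at h3 h4
  have hk : (1 : ℝ) ≤ k := by
    have : 1 ≤ k := Nat.one_le_iff_ne_zero.mpr (NeZero.ne k)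
    exact_mod_cast this
  have h5 : (2 * (k : ℝ) - 1) * (run c L).w Y ≤ (2 * (k : ℝ) - 1) * (run c L).w X :=
    mul_le_mul_of_nonneg_left h4 (by linarith)
  linarith

theorem run_w_append (c : Fin k → M) (L B : List M) {X : Fin k → M}
    (hB : ∀ x ∈ B, ∃ i, X i = x) : (run c (L ++ B)).w X = (run c L).w X := by
  induction B using List.reverseRecOn with
  | nil => simp
  | append_singleton B r ih =>
    rw [← List.append_assoc, run_concat]
    obtain ⟨i, hi⟩ := hB r (by simp)
    have h1 : upd (run c (L ++ B)).w r X = (run c (L ++ B)).w X :=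
      (run_isWork c (L ++ B)).upd_eq hi
    simp only [step]
    rw [h1]
    exact ih fun x hx => hB x (by simp [hx])

theorem run_move (c : Fin k → M) (L B : List M) :
    ∑ i, dist ((run c L).C i) ((run c (L ++ B)).C i) ≤ (run c (L ++ B)).cost - (run c L).cost := by
  induction B using List.reverseRecOn with
  | nil => simp
  | append_singleton B r ih =>
    rw [← List.append_assoc, run_concat]
    simp only [step]
    set s := run c (L ++ B) with hs
    set m := mover s.w s.C r with hm
    have h1 : ∑ i, dist ((run c L).C i) (update s.C m r i)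
        ≤ ∑ i, (dist ((run c L).C i) (s.C i) + dist (s.C i) (update s.C m r i)) :=
      Finset.sum_le_sum fun i _ => dist_triangle _ _ _
    rw [Finset.sum_add_distrib] at h1
    have h2 : ∑ i, dist (s.C i) (update s.C m r i) = dist (s.C m) r := by
      rw [Finset.sum_eq_single m]
      · simp
      · intro b _ hb
        rw [update_of_ne hb, dist_self]
      · intro h; exact absurd (Finset.mem_univ m) h
    linarith

/-- A finite set of points has a least positive distance. -/
theorem exists_gap (S : Finset M) : ∃ δ : ℝ, 0 < δ ∧ ∀ x ∈ S, ∀ y ∈ S, x ≠ y → δ ≤ dist x y := by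
  classical
  by_cases h : (S.offDiag).Nonempty
  · obtain ⟨p, hp, hmin⟩ := Finset.exists_min_image S.offDiag (fun p => dist p.1 p.2) h
    rw [Finset.mem_offDiag] at hp
    refine ⟨dist p.1 p.2, dist_pos.mpr hp.2.2, fun x hx y hy hxy => ?_⟩
    exact hmin (x, y) (Finset.mem_offDiag.mpr ⟨hx, hy, hxy⟩)
  · refine ⟨1, one_pos, fun x hx y hy hxy => ?_⟩
    exact absurd ⟨(x, y), Finset.mem_offDiag.mpr ⟨hx, hy, hxy⟩⟩ h

/-- After finitely many alternating requests both points are covered. -/
theorem exists_block (hk : 2 ≤ k) (c : Fin k → M) (L : List M) (p r : M) :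
    ∃ B : List M, (∀ x ∈ B, x = p ∨ x = r) ∧ (∃ i, (run c (L ++ B)).C i = p) ∧
      ∃ i, (run c (L ++ B)).C i = r := by
  classical
  by_contra hcon
  have hcon' : ∀ B : List M, (∀ x ∈ B, x = p ∨ x = r) →
      ∃ x, (x = p ∨ x = r) ∧ ∀ i, (run c (L ++ B)).C i ≠ x := by
    intro B hB
    by_contra h2
    apply hcon
    push Not at h2
    exact ⟨B, hB, h2 p (Or.inl rfl), h2 r (Or.inr rfl)⟩
  set S : Finset M := Finset.univ.image c ∪ L.toFinset ∪ {p, r} with hS
  have hc : ∀ i, c i ∈ S := fun i => by simp [hS]
  have hpS : p ∈ S := by simp [hS]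
  have hrS : r ∈ S := by simp [hS]
  obtain ⟨δ, hδ, hgap⟩ := exists_gap S
  have hmemB : ∀ B : List M, (∀ x ∈ B, x = p ∨ x = r) → ∀ x ∈ L ++ B, x ∈ S := by
    intro B hB x hx
    rcases List.mem_append.mp hx with h | h
    · simp [hS, h]
    · rcases hB x h with h | h <;> subst h <;> assumption
  have hgrow : ∀ n : ℕ, ∃ B : List M, (∀ x ∈ B, x = p ∨ x = r) ∧
      (run c L).cost + n * δ ≤ (run c (L ++ B)).cost := by
    intro n
    induction n with
    | zero => exact ⟨[], by simp, by simp⟩
    | succ n ih =>
      obtain ⟨B, hB, hn⟩ := ih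
      obtain ⟨x, hx, hun⟩ := hcon' B hB
      have hxS : x ∈ S := by rcases hx with h | h <;> subst h <;> assumption
      refine ⟨B ++ [x], ?_, ?_⟩
      · intro y hy
        rcases List.mem_append.mp hy with h | h
        · exact hB y h
        · rw [List.mem_singleton] at h
          rw [h]; exact hx
      · rw [← List.append_assoc, run_concat]
        simp only [step]
        have h1 := hgap _ (run_mem c hc (L ++ B) (hmemB B hB)
          (mover (run c (L ++ B)).w (run c (L ++ B)).C x)) x hxS (hun _)
        push_cast
        linarith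
  set X : Fin k → M := fun i => if (i : ℕ) = 0 then p else r with hX
  have hXp : X ⟨0, by omega⟩ = p := by simp [hX]
  have hXr : X ⟨1, by omega⟩ = r := by simp [hX]
  obtain ⟨n, hn⟩ := exists_nat_gt
    (((2 * k - 1) * (run c L).w X + ∑ i, ∑ j, dist (c i) (c j) - (run c L).cost) / δ)
  obtain ⟨B, hB, hcost⟩ := hgrow n
  have h1 := run_bound c (L ++ B) X
  rw [run_w_append c L B (fun x hx => by
    rcases hB x hx with h | h
    · exact ⟨_, h ▸ hXp⟩
    · exact ⟨_, h ▸ hXr⟩)] at h1
  rw [div_lt_iff₀ hδ] at hn
  linarith

/-- Relabelling does not increase the cost. -/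
theorem swap_cost (C C' : Fin k → M) {a j : Fin k} (h : C a = C' j) :
    ∑ m, dist (C m) (C' (Equiv.swap a j m)) ≤ ∑ m, dist (C m) (C' m) := by
  classical
  by_cases haj : a = j
  · subst haj; simp
  have hsub : ∀ f : Fin k → ℝ, ∑ m, f m = f a + (f j + ∑ m ∈ (Finset.univ.erase a).erase j, f m) := by
    intro f
    rw [Finset.add_sum_erase (Finset.univ.erase a) f
      (Finset.mem_erase.mpr ⟨Ne.symm haj, Finset.mem_univ j⟩),
      Finset.add_sum_erase Finset.univ f (Finset.mem_univ a)]
  rw [hsub, hsub]
  have h1 : ∑ m ∈ (Finset.univ.erase a).erase j, dist (C m) (C' (Equiv.swap a j m))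
      = ∑ m ∈ (Finset.univ.erase a).erase j, dist (C m) (C' m) := by
    refine Finset.sum_congr rfl fun m hm => ?_
    have h2 : m ≠ j := Finset.ne_of_mem_erase hm
    have h3 : m ≠ a := Finset.ne_of_mem_erase (Finset.mem_of_mem_erase hm)
    rw [Equiv.swap_apply_of_ne_of_ne h3 h2]
  rw [h1, Equiv.swap_apply_left, Equiv.swap_apply_right]
  have h2 : dist (C a) (C' j) = 0 := by rw [h, dist_self]
  have h3 := dist_triangle (C j) (C' j) (C' a)
  rw [← h] at h3
  rw [← h, dist_self]
  linarith

end Pool.Agent.R804.KServer
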