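import Mathlib

/-!
# Work functions of the ordinary k-server problem: quasiconvexity and duality
-/

set_option autoImplicit false

open scoped BigOperators
open Function

namespace Pool.Agent.R804.KServer

universe u

variable {M : Type u} [MetricSpace M] {k : ℕ}

/-- The quasiconvexity inequality for a pair of configurations matched by their labels. -/
def QC (w : (Fin k → M) → ℝ) (A B : Fin k → M) : Prop :=
  ∀ P : Finset (Fin k), w (P.piecewise A B) + w (P.piecewise B A) ≤ w A + w B

/-- The properties of work functions which are used. -/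
structure IsWork (w : (Fin k → M) → ℝ) : Prop where
  symm : ∀ (σ : Equiv.Perm (Fin k)) (X : Fin k → M), w (X ∘ σ) = w X
  lip : ∀ (X : Fin k → M) (i : Fin k) (y : M), w X ≤ w (update X i y) + dist (X i) y
  qc : ∀ A B : Fin k → M, ∃ g : Equiv.Perm (Fin k), QC w A (B ∘ g)

theorem QC.swap {w : (Fin k → M) → ℝ}
    (hs : ∀ (σ : Equiv.Perm (Fin k)) (X : Fin k → M), w (X ∘ σ) = w X)
    {A B : Fin k → M} (h : QC w A B) {i j : Fin k} (hij : A i = B j) :
    QC w A (B ∘ Equiv.swap i j) := by
  by_cases hne : i = j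
  · subst hne
    simpa using h
  intro P
  rw [hs (Equiv.swap i j) B]
  by_cases hi : i ∈ P <;> by_cases hj : j ∈ P
  · have e1 : P.piecewise A (B ∘ Equiv.swap i j) = P.piecewise A B := by
      funext m
      by_cases hm : m ∈ P
      · simp [hm]
      · have h1 : m ≠ i := fun e => hm (e ▸ hi)
        have h2 : m ≠ j := fun e => hm (e ▸ hj)
        simp [hm, Equiv.swap_apply_of_ne_of_ne h1 h2]
    have e2 : P.piecewise (B ∘ Equiv.swap i j) A = (P.piecewise B A) ∘ Equiv.swap i j := by
      funext m
      by_cases h1 : m = i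
      · subst h1; simp [hi, hj]
      · by_cases h2 : m = j
        · subst h2; simp [hi, hj]
        · by_cases hm : m ∈ P <;> simp [hm, Equiv.swap_apply_of_ne_of_ne h1 h2]
    rw [e1, e2, hs]
    exact h P
  · have e1 : P.piecewise A (B ∘ Equiv.swap i j)
        = ((P.erase i).piecewise A B) ∘ Equiv.swap i j := by
      funext m
      by_cases h1 : m = i
      · subst h1
        simp [hi, hj, hij]
      · by_cases h2 : m = j
        · subst h2; simp [hj]
        · by_cases hm : m ∈ P <;> simp [hm, h1, Equiv.swap_apply_of_ne_of_ne h1 h2]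
    have e2 : P.piecewise (B ∘ Equiv.swap i j) A = (P.erase i).piecewise B A := by
      funext m
      by_cases h1 : m = i
      · subst h1
        simp [hi, hij]
      · by_cases h2 : m = j
        · subst h2; simp [hj]
        · by_cases hm : m ∈ P <;> simp [hm, h1, Equiv.swap_apply_of_ne_of_ne h1 h2]
    rw [e1, e2, hs]
    exact h _
  · have e1 : P.piecewise A (B ∘ Equiv.swap i j) = (insert i P).piecewise A B := by
      funext m
      by_cases h1 : m = i
      · subst h1
        simp [hi, hij]
      · by_cases h2 : m = j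
        · subst h2; simp [hj, h1]
        · by_cases hm : m ∈ P <;> simp [hm, h1, Equiv.swap_apply_of_ne_of_ne h1 h2]
    have e2 : P.piecewise (B ∘ Equiv.swap i j) A
        = ((insert i P).piecewise B A) ∘ Equiv.swap i j := by
      funext m
      by_cases h1 : m = i
      · subst h1
        simp [hi, hj, hij]
      · by_cases h2 : m = j
        · subst h2; simp [hj]
        · by_cases hm : m ∈ P <;> simp [hm, h1, Equiv.swap_apply_of_ne_of_ne h1 h2]
    rw [e1, e2, hs]
    exact h _
  · have e1 : P.piecewise A (B ∘ Equiv.swap i j) = (P.piecewise A B) ∘ Equiv.swap i j := by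
      funext m
      by_cases h1 : m = i
      · subst h1; simp [hi, hj]
      · by_cases h2 : m = j
        · subst h2; simp [hi, hj]
        · by_cases hm : m ∈ P <;> simp [hm, Equiv.swap_apply_of_ne_of_ne h1 h2]
    have e2 : P.piecewise (B ∘ Equiv.swap i j) A = P.piecewise B A := by
      funext m
      by_cases hm : m ∈ P
      · have h1 : m ≠ i := fun e => hi (e ▸ hm)
        have h2 : m ≠ j := fun e => hj (e ▸ hm)
        simp [hm, Equiv.swap_apply_of_ne_of_ne h1 h2]
      · simp [hm]
    rw [e1, e2, hs]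
    exact h P

section upd

variable [NeZero k]

/-- The work function after the additional request `r`. -/
noncomputable def upd (w : (Fin k → M) → ℝ) (r : M) (X : Fin k → M) : ℝ :=
  Finset.univ.inf' ⟨0, Finset.mem_univ _⟩ (fun i : Fin k => w (update X i r) + dist (X i) r)

theorem upd_le (w : (Fin k → M) → ℝ) (r : M) (X : Fin k → M) (i : Fin k) :
    upd w r X ≤ w (update X i r) + dist (X i) r :=
  Finset.inf'_le _ (Finset.mem_univ i)

theorem exists_upd (w : (Fin k → M) → ℝ) (r : M) (X : Fin k → M) :
    ∃ i : Fin k, upd w r X = w (update X i r) + dist (X i) r := by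
  obtain ⟨i, _, hi⟩ := Finset.exists_mem_eq_inf' (s := (Finset.univ : Finset (Fin k)))
    ⟨0, Finset.mem_univ _⟩ (fun i : Fin k => w (update X i r) + dist (X i) r)
  exact ⟨i, hi⟩

theorem IsWork.le_upd {w : (Fin k → M) → ℝ} (hw : IsWork w) (r : M) (X : Fin k → M) :
    w X ≤ upd w r X := by
  obtain ⟨i, hi⟩ := exists_upd w r X
  rw [hi]
  exact hw.lip X i r

theorem IsWork.upd_eq {w : (Fin k → M) → ℝ} (hw : IsWork w) {r : M} {X : Fin k → M} {i : Fin k}
    (hi : X i = r) : upd w r X = w X := by
  apply le_antisymm _ (hw.le_upd r X)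
  have h := upd_le w r X i
  rwa [← hi, update_eq_self, dist_self, add_zero, hi] at h

theorem upd_symm_le {w : (Fin k → M) → ℝ}
    (hs : ∀ (σ : Equiv.Perm (Fin k)) (X : Fin k → M), w (X ∘ σ) = w X) (r : M)
    (σ : Equiv.Perm (Fin k)) (X : Fin k → M) : upd w r (X ∘ σ) ≤ upd w r X := by
  obtain ⟨i, hi⟩ := exists_upd w r X
  have h := upd_le w r (X ∘ σ) (σ.symm i)
  have e : update (X ∘ σ) (σ.symm i) r = (update X i r) ∘ σ := by
    funext m
    by_cases hm : m = σ.symm i
    · subst hm; simp
    · have : σ m ≠ i := fun e => hm (by rw [← e]; simp)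
      simp [hm, this]
  rw [e, hs] at h
  rw [hi]
  simpa using h

theorem upd_symm {w : (Fin k → M) → ℝ}
    (hs : ∀ (σ : Equiv.Perm (Fin k)) (X : Fin k → M), w (X ∘ σ) = w X) (r : M)
    (σ : Equiv.Perm (Fin k)) (X : Fin k → M) : upd w r (X ∘ σ) = upd w r X := by
  apply le_antisymm (upd_symm_le hs r σ X)
  have h := upd_symm_le hs r σ.symm (X ∘ σ)
  have e : (X ∘ σ) ∘ σ.symm = X := by
    funext m; simp
  rwa [e] at h

theorem IsWork.upd {w : (Fin k → M) → ℝ} (hw : IsWork w) (r : M) : IsWork (upd w r) where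
  symm := upd_symm hw.symm r
  lip := by
    intro X i y
    obtain ⟨j, hj⟩ := exists_upd w r (update X i y)
    rw [hj]
    by_cases hij : j = i
    · subst hij
      have h := upd_le w r X j
      have e : update (update X j y) j r = update X j r := by simp
      rw [e, update_self]
      have := dist_triangle (X j) y r
      linarith
    · have h := upd_le w r X j
      have h2 := hw.lip (update X j r) i y
      rw [update_of_ne hij]
      rw [update_comm hij, update_of_ne (Ne.symm hij)] at h2
      linarith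
  qc := by
    intro A B
    obtain ⟨a, ha⟩ := exists_upd w r A
    obtain ⟨b, hb⟩ := exists_upd w r B
    obtain ⟨g, hg⟩ := hw.qc (update A a r) (update B b r)
    set j : Fin k := g.symm b with hjdef
    have hcoin : (update A a r) a = ((update B b r) ∘ g) j := by simp [hjdef]
    have h2 := hg.swap hw.symm hcoin
    set g2 : Equiv.Perm (Fin k) := (Equiv.swap a j).trans g with hg2
    have hg2a : g2 a = b := by simp [hg2, hjdef]
    have e : ((update B b r) ∘ g) ∘ (Equiv.swap a j) = update (B ∘ g2) a r := by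
      funext m
      by_cases hm : m = a
      · subst hm
        simp [hjdef]
      · have : g2 m ≠ b := fun e => hm (g2.injective (e.trans hg2a.symm))
        have h3 : g ((Equiv.swap a j) m) = g2 m := rfl
        simp only [comp_apply, h3]
        rw [update_of_ne this, update_of_ne hm]
        rfl
    rw [e] at h2
    refine ⟨g2, fun P => ?_⟩
    have h3 := h2 P
    have h4 : w (update (B ∘ g2) a r) = w (update B b r) := by
      rw [← e]
      rw [hw.symm, hw.symm]
    have u1 := upd_le w r (P.piecewise A (B ∘ g2)) a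
    have u2 := upd_le w r (P.piecewise (B ∘ g2) A) a
    rw [Finset.update_piecewise] at u1 u2
    have h5 : dist (P.piecewise A (B ∘ g2) a) r + dist (P.piecewise (B ∘ g2) A a) r
        = dist (A a) r + dist (B b) r := by
      by_cases haP : a ∈ P
      · simp [haP, hg2a]
      · simp [haP, hg2a, add_comm]
    rw [upd_symm hw.symm, ha, hb]
    linarith

end upd

/-- The sum of distances to a point after changing one position. -/
theorem sum_dist_update (A : Fin k → M) (a : Fin k) (y r : M) :
    ∑ i, dist (update A a y i) r = ∑ i, dist (A i) r - dist (A a) r + dist y r := by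
  have h1 : ∑ i, dist (update A a y i) r
      = dist y r + ∑ i ∈ Finset.univ.erase a, dist (A i) r := by
    rw [← Finset.add_sum_erase Finset.univ _ (Finset.mem_univ a), update_self]
    congr 1
    refine Finset.sum_congr rfl fun i hi => ?_
    rw [update_of_ne (Finset.ne_of_mem_erase hi)]
  have h2 : ∑ i, dist (A i) r = dist (A a) r + ∑ i ∈ Finset.univ.erase a, dist (A i) r :=
    (Finset.add_sum_erase Finset.univ _ (Finset.mem_univ a)).symm
  rw [h1, h2]; ring

theorem sum_dist_comp (A : Fin k → M) (g : Equiv.Perm (Fin k)) (r : M) :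
    ∑ i, dist ((A ∘ g) i) r = ∑ i, dist (A i) r :=
  Equiv.sum_comp g (fun i => dist (A i) r)

/-- `A` minimizes `w X - Σ d(X i, r)` over the configurations in `S`. -/
def IsMin (S : Finset M) (w : (Fin k → M) → ℝ) (r : M) (A : Fin k → M) : Prop :=
  (∀ i, A i ∈ S) ∧ ∀ X : Fin k → M, (∀ i, X i ∈ S) →
    w A - ∑ i, dist (A i) r ≤ w X - ∑ i, dist (X i) r

section dual

variable [NeZero k] {S : Finset M} {w : (Fin k → M) → ℝ} {r : M} {A : Fin k → M}

theorem update_mem {X : Fin k → M} (hX : ∀ i, X i ∈ S) (a : Fin k) {y : M} (hy : y ∈ S) :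
    ∀ i, update X a y i ∈ S := by
  intro i
  by_cases h : i = a
  · subst h; simpa using hy
  · rw [update_of_ne h]; exact hX i

theorem IsMin.dual1 (hw : IsWork w) (hA : IsMin S w r A) {B : Fin k → M}
    (hB : ∀ i, B i ∈ S) : w A + upd w r B ≤ upd w r A + w B := by
  obtain ⟨a, ha⟩ := exists_upd w r A
  obtain ⟨g, hg⟩ := hw.qc (update A a r) B
  have h1 := hg {a}
  rw [Finset.piecewise_singleton, Finset.piecewise_singleton, update_self, hw.symm g B,
    update_idem] at h1
  have h2 := hA.2 (update A a ((B ∘ g) a)) (update_mem hA.1 a (hB _))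
  rw [sum_dist_update] at h2
  have h3 := upd_le w r (B ∘ g) a
  rw [upd_symm hw.symm] at h3
  linarith

theorem IsMin.dual2 (hw : IsWork w) (hr : r ∈ S) (hA : IsMin S w r A) :
    IsMin S (upd w r) r A := by
  refine ⟨hA.1, fun B hB => ?_⟩
  obtain ⟨b, hb⟩ := exists_upd w r B
  obtain ⟨g, hg⟩ := hw.qc A (update B b r)
  set a : Fin k := g.symm b with ha
  have h1 := hg {a}
  have e : ((update B b r) ∘ g) a = r := by simp [ha]
  rw [Finset.piecewise_singleton, Finset.piecewise_singleton, e, hw.symm g] at h1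
  have h2 := hA.2 (update ((update B b r) ∘ g) a (A a))
    (update_mem (fun i => update_mem hB b hr (g i)) a (hA.1 a))
  rw [sum_dist_update, sum_dist_comp, sum_dist_update, e, dist_self] at h2
  have h3 := upd_le w r A a
  linarith

end dual

/-- The minimum of a function over the configurations in `S`. -/
noncomputable def mn (S : Finset M) (f : (Fin k → M) → ℝ) : ℝ :=
  sInf (f '' {X : Fin k → M | ∀ i, X i ∈ S})

theorem confs_finite (S : Finset M) : {X : Fin k → M | ∀ i, X i ∈ S}.Finite := by
  have := Set.Finite.pi' (ι := Fin k) (t := fun _ => (S : Set M)) (fun _ => S.finite_toSet)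
  exact this

theorem mn_le {S : Finset M} (f : (Fin k → M) → ℝ) {X : Fin k → M} (hX : ∀ i, X i ∈ S) :
    mn S f ≤ f X :=
  csInf_le ((confs_finite S).image f).bddBelow ⟨X, hX, rfl⟩

theorem exists_mn {S : Finset M} (hS : S.Nonempty) (f : (Fin k → M) → ℝ) :
    ∃ X : Fin k → M, (∀ i, X i ∈ S) ∧ mn S f = f X := by
  obtain ⟨s, hs⟩ := hS
  have hne : (f '' {X : Fin k → M | ∀ i, X i ∈ S}).Nonempty :=
    ⟨f fun _ => s, fun _ => s, fun _ => hs, rfl⟩
  obtain ⟨X, hX, h⟩ := hne.csInf_mem ((confs_finite S).image f)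
  exact ⟨X, hX, h.symm⟩

/-- The building block of the potential. -/
noncomputable def mval (S : Finset M) (w : (Fin k → M) → ℝ) (u : M) : ℝ :=
  mn S (fun B => w B - ∑ i, dist (B i) u)

/-- The potential of a work function and a configuration. -/
noncomputable def phiU (S : Finset M) (w : (Fin k → M) → ℝ) (U : Fin k → M) : ℝ :=
  k * w U + ∑ i, mval S w (U i)

/-- The potential of a work function. -/
noncomputable def phi (S : Finset M) (w : (Fin k → M) → ℝ) : ℝ := mn S (phiU S w)

section potential

variable [NeZero k] {S : Finset M} {w : (Fin k → M) → ℝ} {r : M}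

theorem mval_mono (hS : S.Nonempty) {w' : (Fin k → M) → ℝ} (h : ∀ X, w X ≤ w' X) (u : M) :
    mval S w u ≤ mval S w' u := by
  obtain ⟨X, hX, e⟩ := exists_mn hS (fun B : Fin k → M => w' B - ∑ i, dist (B i) u)
  have h1 : mval S w u ≤ w X - ∑ i, dist (X i) u :=
    mn_le (fun B : Fin k → M => w B - ∑ i, dist (B i) u) hX
  have h2 := h X
  unfold mval at *
  rw [e]
  linarith

theorem mval_lip (hS : S.Nonempty) (w : (Fin k → M) → ℝ) (u v : M) :
    mval S w v ≤ mval S w u + k * dist u v := by
  obtain ⟨X, hX, e⟩ := exists_mn hS (fun B : Fin k → M => w B - ∑ i, dist (B i) u)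
  have h1 : mval S w v ≤ w X - ∑ i, dist (X i) v :=
    mn_le (fun B : Fin k → M => w B - ∑ i, dist (B i) v) hX
  have h2 : ∑ i, dist (X i) u ≤ ∑ i, (dist (X i) v + dist u v) := by
    refine Finset.sum_le_sum fun i _ => ?_
    have := dist_triangle (X i) v u
    rw [dist_comm v u] at this
    exact this
  rw [Finset.sum_add_distrib, Finset.sum_const, Finset.card_univ, Fintype.card_fin,
    nsmul_eq_mul] at h2
  have e' : mval S w u = w X - ∑ i, dist (X i) u := e
  rw [e']
  linarith

theorem mval_upd (hw : IsWork w) (hr : r ∈ S) {X : Fin k → M} (hX : ∀ i, X i ∈ S) :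
    mval S w r + (upd w r X - w X) ≤ mval S (upd w r) r := by
  obtain ⟨A, hA, e⟩ := exists_mn ⟨r, hr⟩ (fun B : Fin k → M => w B - ∑ i, dist (B i) r)
  have hmin : IsMin S w r A := ⟨hA, fun X hX => by
    have := mn_le (fun B : Fin k → M => w B - ∑ i, dist (B i) r) hX
    rw [e] at this
    exact this⟩
  obtain ⟨B, hB, e2⟩ := exists_mn ⟨r, hr⟩ (fun B : Fin k → M => upd w r B - ∑ i, dist (B i) r)
  have h2 := (hmin.dual2 hw hr).2 B hB
  have h1 := hmin.dual1 hw hX
  have e' : mval S w r = w A - ∑ i, dist (A i) r := e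
  have e2' : mval S (upd w r) r = upd w r B - ∑ i, dist (B i) r := e2
  rw [e', e2']
  linarith

theorem phi_upd (hw : IsWork w) (hr : r ∈ S) {X : Fin k → M} (hX : ∀ i, X i ∈ S) :
    phi S w + (upd w r X - w X) ≤ phi S (upd w r) := by
  obtain ⟨U, hU, e⟩ := exists_mn ⟨r, hr⟩ (phiU S (upd w r))
  obtain ⟨j, hj⟩ := exists_upd w r U
  set V : Fin k → M := update U j r with hV
  have hVS : ∀ i, V i ∈ S := update_mem hU j hr
  have hVj : V j = r := by simp [hV]
  have hV1 : upd w r V = w V := hw.upd_eq hVj
  have hsum : ∀ w' : (Fin k → M) → ℝ, ∑ i, mval S w' (V i)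
      = mval S w' r + ∑ i ∈ Finset.univ.erase j, mval S w' (U i) := by
    intro w'
    rw [← Finset.add_sum_erase Finset.univ _ (Finset.mem_univ j), hVj]
    congr 1
    refine Finset.sum_congr rfl fun i hi => ?_
    rw [hV, update_of_ne (Finset.ne_of_mem_erase hi)]
  have hsumU : ∑ i, mval S (upd w r) (U i)
      = mval S (upd w r) (U j) + ∑ i ∈ Finset.univ.erase j, mval S (upd w r) (U i) :=
    (Finset.add_sum_erase Finset.univ _ (Finset.mem_univ j)).symm
  have hk : (0 : ℝ) ≤ k := Nat.cast_nonneg k
  have h1 := mval_lip (k := k) ⟨r, hr⟩ (upd w r) (U j) r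
  have h2 : phiU S (upd w r) V ≤ phiU S (upd w r) U := by
    unfold phiU
    rw [hsum, hsumU, hV1, hj, mul_add]
    linarith
  have h3 : phi S w ≤ phiU S w V := mn_le _ hVS
  have h4 := mval_upd hw hr hX
  have h5 : ∑ i ∈ Finset.univ.erase j, mval S w (U i)
      ≤ ∑ i ∈ Finset.univ.erase j, mval S (upd w r) (U i) :=
    Finset.sum_le_sum fun i _ => mval_mono ⟨r, hr⟩ (hw.le_upd r) _
  have h6 : phiU S w V + (upd w r X - w X) ≤ phiU S (upd w r) V := by
    unfold phiU
    rw [hsum, hsum, hV1]
    linarith
  have e' : phi S (upd w r) = phiU S (upd w r) U := e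
  rw [e']
  linarith

theorem phi_le {X : Fin k → M} (hX : ∀ i, X i ∈ S) : phi S w ≤ 2 * k * w X := by
  have h1 : phi S w ≤ phiU S w X := mn_le _ hX
  have h2 : ∑ i, mval S w (X i) ≤ ∑ _i : Fin k, w X := by
    refine Finset.sum_le_sum fun i _ => ?_
    have h3 : mval S w (X i) ≤ w X - ∑ j, dist (X j) (X i) :=
      mn_le (fun B : Fin k → M => w B - ∑ j, dist (B j) (X i)) hX
    have h4 : 0 ≤ ∑ j, dist (X j) (X i) := Finset.sum_nonneg fun _ _ => dist_nonneg
    linarith
  rw [Finset.sum_const, Finset.card_univ, Fintype.card_fin, nsmul_eq_mul] at h2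
  unfold phiU at h1
  linarith

end potential

section base

/-- The initial work function: the matching distance to the initial configuration. -/
noncomputable def base (c : Fin k → M) (X : Fin k → M) : ℝ :=
  Finset.univ.inf' ⟨1, Finset.mem_univ _⟩
    (fun σ : Equiv.Perm (Fin k) => ∑ i, dist (X i) (c (σ i)))

theorem base_le (c X : Fin k → M) (σ : Equiv.Perm (Fin k)) :
    base c X ≤ ∑ i, dist (X i) (c (σ i)) :=
  Finset.inf'_le _ (Finset.mem_univ σ)

theorem exists_base (c X : Fin k → M) :
    ∃ σ : Equiv.Perm (Fin k), base c X = ∑ i, dist (X i) (c (σ i)) := by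
  obtain ⟨i, _, hi⟩ := Finset.exists_mem_eq_inf' (s := (Finset.univ : Finset (Equiv.Perm (Fin k))))
    ⟨1, Finset.mem_univ _⟩ (fun σ : Equiv.Perm (Fin k) => ∑ i, dist (X i) (c (σ i)))
  exact ⟨i, hi⟩

theorem base_self (c : Fin k → M) : base c c ≤ 0 := by
  have := base_le c c 1
  simpa using this

theorem base_symm_le (c X : Fin k → M) (σ : Equiv.Perm (Fin k)) :
    base c (X ∘ σ) ≤ base c X := by
  obtain ⟨τ, hτ⟩ := exists_base c X
  have h := base_le c (X ∘ σ) (σ.trans τ)
  rw [hτ]
  refine h.trans (le_of_eq ?_)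
  exact Equiv.sum_comp σ (fun i => dist (X i) (c (τ i)))

theorem base_isWork (c : Fin k → M) : IsWork (base c) where
  symm := by
    intro σ X
    apply le_antisymm (base_symm_le c X σ)
    have h := base_symm_le c (X ∘ σ) σ.symm
    have e : (X ∘ σ) ∘ σ.symm = X := by funext m; simp
    rwa [e] at h
  lip := by
    intro X i y
    obtain ⟨τ, hτ⟩ := exists_base c (update X i y)
    have h := base_le c X τ
    have h2 : ∑ m, dist (X m) (c (τ m))
        ≤ ∑ m, (dist (update X i y m) (c (τ m)) + dist (X m) (update X i y m)) := by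
      refine Finset.sum_le_sum fun m _ => ?_
      have := dist_triangle (X m) (update X i y m) (c (τ m))
      linarith
    rw [Finset.sum_add_distrib] at h2
    have h3 : ∑ m, dist (X m) (update X i y m) = dist (X i) y := by
      rw [Finset.sum_eq_single i]
      · simp
      · intro b _ hb
        rw [update_of_ne hb, dist_self]
      · intro h; exact absurd (Finset.mem_univ i) h
    rw [hτ]
    linarith
  qc := by
    intro A B
    obtain ⟨σ, hσ⟩ := exists_base c A
    obtain ⟨τ, hτ⟩ := exists_base c B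
    set g : Equiv.Perm (Fin k) := σ.trans τ.symm with hg
    have hgσ : ∀ i, τ (g i) = σ i := by intro i; simp [hg]
    have hB : ∑ i, dist ((B ∘ g) i) (c (σ i)) = ∑ i, dist (B i) (c (τ i)) := by
      rw [← Equiv.sum_comp g (fun i => dist (B i) (c (τ i)))]
      refine Finset.sum_congr rfl fun i _ => ?_
      simp only [comp_apply, hgσ]
    have hBg : base c (B ∘ g) ≤ base c B := base_symm_le c B g
    have hBg' : base c B ≤ base c (B ∘ g) := by
      have h := base_symm_le c (B ∘ g) g.symm
      have e : (B ∘ g) ∘ g.symm = B := by funext m; simp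
      rwa [e] at h
    refine ⟨g, fun P => ?_⟩
    have h1 := base_le c (P.piecewise A (B ∘ g)) σ
    have h2 := base_le c (P.piecewise (B ∘ g) A) σ
    have h3 : ∑ i, dist (P.piecewise A (B ∘ g) i) (c (σ i))
        + ∑ i, dist (P.piecewise (B ∘ g) A i) (c (σ i))
        = ∑ i, dist (A i) (c (σ i)) + ∑ i, dist ((B ∘ g) i) (c (σ i)) := by
      rw [← Finset.sum_add_distrib, ← Finset.sum_add_distrib]
      refine Finset.sum_congr rfl fun i _ => ?_
      by_cases hi : i ∈ P
      · simp [hi]
      · simp [hi, add_comm]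
    linarith

theorem phi_base {S : Finset M} (hS : S.Nonempty) (c : Fin k → M) :
    -(∑ i, ∑ j, dist (c i) (c j)) ≤ phi S (base c) := by
  obtain ⟨U, hU, e⟩ := exists_mn hS (phiU S (base c))
  obtain ⟨σ, hσ⟩ := exists_base c U
  have h1 : ∀ u : M, -(∑ j, dist (c j) u) ≤ mval S (base c) u := by
    intro u
    obtain ⟨B, hB, e2⟩ := exists_mn hS (fun B : Fin k → M => base c B - ∑ i, dist (B i) u)
    obtain ⟨τ, hτ⟩ := exists_base c B
    have e2' : mval S (base c) u = base c B - ∑ i, dist (B i) u := e2
    have h2 : ∑ i, dist (B i) u ≤ ∑ i, (dist (B i) (c (τ i)) + dist (c (τ i)) u) :=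
      Finset.sum_le_sum fun i _ => dist_triangle _ _ _
    rw [Finset.sum_add_distrib, Equiv.sum_comp τ (fun i => dist (c i) u)] at h2
    rw [e2', hτ]
    linarith
  have h2 : -(∑ i, ∑ j, (dist (c j) (c (σ i)) + dist (U i) (c (σ i))))
      ≤ ∑ i, mval S (base c) (U i) := by
    rw [← Finset.sum_neg_distrib]
    refine Finset.sum_le_sum fun i _ => ?_
    refine le_trans ?_ (h1 (U i))
    rw [neg_le_neg_iff]
    refine Finset.sum_le_sum fun j _ => ?_
    have := dist_triangle (c j) (c (σ i)) (U i)
    rw [dist_comm (c (σ i)) (U i)] at this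
    exact this
  have h3 : ∑ i, ∑ j, (dist (c j) (c (σ i)) + dist (U i) (c (σ i)))
      = ∑ i, ∑ j, dist (c i) (c j) + k * ∑ i, dist (U i) (c (σ i)) := by
    have h4 : ∀ i, ∑ j : Fin k, (dist (c j) (c (σ i)) + dist (U i) (c (σ i)))
        = ∑ j, dist (c j) (c (σ i)) + k * dist (U i) (c (σ i)) := by
      intro i
      rw [Finset.sum_add_distrib, Finset.sum_const, Finset.card_univ, Fintype.card_fin,
        nsmul_eq_mul]
    rw [Finset.sum_congr rfl fun i _ => h4 i, Finset.sum_add_distrib, ← Finset.mul_sum]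
    congr 1
    rw [Equiv.sum_comp σ (fun i => ∑ j, dist (c j) (c i)), Finset.sum_comm]
  have e' : phi S (base c) = phiU S (base c) U := e
  rw [e']
  unfold phiU
  rw [hσ]
  linarith

end base

end Pool.Agent.R804.KServer
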